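import Pool.Agent.R156.MonoGeom

/-!
# Edge counts of monotone non-homotopic `k`-crossing drawings

`h_mon(n, k)` is the maximum number of edges of a multigraph with `n` vertices which has a monotone
non-homotopic drawing in which every two different edges cross at most `k` times.  The definitions
(`MonotoneDrawing`, `Homotopic`, `MonotoneDrawing.NonHomotopic`, `MonotoneDrawing.crossings`,
`Drawable`) are in `Pool.Agent.R156.MonoGeom`.

We show that the maximum exists, that `h_mon(n, k) ≤ 4 ∑_{ℓ = 0}^{k} binom(n, ℓ + 1)` for all `n ≥ 1`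
and `k ≥ 0` (this answers the question), and more precisely that
`h_mon(n, k) ≤ 4 ∑_{ℓ = 0}^{k} binom(n - 2, ℓ + 1) - n + 3` for all `n ≥ 2`.
-/

set_option autoImplicit false

namespace Pool.Agent.Results.MP_6a261b_co.LinearInBinomialSum

open Pool.Agent.R156.MonoGeom Pool.Agent.R156.MonoComb Finset

theorem drawable_zero (n k : ℕ) : Drawable n k 0 := by
  refine ⟨⟨fun v => ((v : ℕ), 0), ?_, Fin.elim0, Fin.elim0, Fin.elim0, fun e => e.elim0,
    fun e => e.elim0, fun e => e.elim0, fun e => e.elim0, fun e => e.elim0⟩, fun e => e.elim0,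
    fun e => e.elim0⟩
  intro v w h
  simp only [Prod.mk.injEq, Nat.cast_inj, and_true] at h
  exact Fin.ext h

theorem sharp_bound {n k m : ℕ} (hn : 2 ≤ n) (h : Drawable n k m) :
    m + n ≤ 4 * (∑ ℓ ∈ range (k + 1), (n - 2).choose (ℓ + 1)) + 3 := by
  obtain ⟨N, rfl⟩ : ∃ N, n = N + 2 := ⟨n - 2, by omega⟩
  have h1 := edges_le h
  have h2 := fb_closed (k + 1) (by omega) N
  have h3 : N + 2 - 2 = N := by omega
  rw [h3]
  omega

theorem weak_bound {n k m : ℕ} (hn : 1 ≤ n) (h : Drawable n k m) :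
    m ≤ 4 * ∑ ℓ ∈ range (k + 1), n.choose (ℓ + 1) := by
  rcases Nat.lt_or_ge 1 n with h2 | h2
  · have h3 := sharp_bound h2 h
    have h4 : ∑ ℓ ∈ range (k + 1), (n - 2).choose (ℓ + 1) ≤
        ∑ ℓ ∈ range (k + 1), n.choose (ℓ + 1) :=
      Finset.sum_le_sum (fun ℓ _ => Nat.choose_le_choose _ (by omega))
    rcases Nat.lt_or_ge n 3 with h5 | h5
    · -- `n = 2`
      have h6 : n = 2 := by omega
      subst h6
      have h7 : (2 : ℕ).choose (0 + 1) ≤ ∑ ℓ ∈ range (k + 1), (2 : ℕ).choose (ℓ + 1) :=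
        Finset.single_le_sum (f := fun ℓ => (2 : ℕ).choose (ℓ + 1)) (fun _ _ => Nat.zero_le _)
          (Finset.mem_range.mpr (by omega))
      have h8 : ∑ ℓ ∈ range (k + 1), (2 - 2).choose (ℓ + 1) = 0 := by
        apply Finset.sum_eq_zero
        intro ℓ _
        simp
      rw [h8] at h3
      have h9 : (2 : ℕ).choose (0 + 1) = 2 := by decide
      omega
    · omega
  · have h3 : n = 1 := by omega
    subst h3
    have h4 := edges_le h
    simp only [fb] at h4
    omega

/-- For all `n ≥ 1` and `k ≥ 0` the maximum number `h` of edges of an `n`-vertex multigraph with a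
monotone non-homotopic drawing in which every two different edges cross at most `k` times exists and
is at most `4 ∑_{ℓ = 0}^{k} binom(n, ℓ + 1)`; for `n ≥ 2` it is at most
`4 ∑_{ℓ = 0}^{k} binom(n - 2, ℓ + 1) - n + 3`. -/
theorem result : ∀ n k : ℕ, 1 ≤ n → ∃ h : ℕ, IsGreatest {m : ℕ | Drawable n k m} h ∧
    h ≤ 4 * (∑ ℓ ∈ range (k + 1), n.choose (ℓ + 1)) ∧
    (2 ≤ n → h + n ≤ 4 * (∑ ℓ ∈ range (k + 1), (n - 2).choose (ℓ + 1)) + 3) := by
  intro n k hn
  have hbdd : BddAbove {m : ℕ | Drawable n k m} :=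
    ⟨4 * ∑ ℓ ∈ range (k + 1), n.choose (ℓ + 1), fun m hm => weak_bound hn hm⟩
  have hne : {m : ℕ | Drawable n k m}.Nonempty := ⟨0, drawable_zero n k⟩
  have hmem : Drawable n k (sSup {m : ℕ | Drawable n k m}) := Nat.sSup_mem hne hbdd
  exact ⟨sSup {m : ℕ | Drawable n k m}, ⟨hmem, fun m hm => le_csSup hbdd hm⟩,
    weak_bound hn hmem, fun h2 => sharp_bound h2 hmem⟩

end Pool.Agent.Results.MP_6a261b_co.LinearInBinomialSum
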