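import Mathlib

/-!
# Monotone non-homotopic k-crossing drawings

A multigraph on `n` vertices which has an x-monotone non-homotopic drawing in the plane in which
every two distinct edges cross at most `k` times has at most
`5 * (C(n, 1) + C(n, 2) + ... + C(n, k + 1))` edges.

Proof idea. Encode an edge from the vertex of rank `a` to the vertex of rank `b` (in the order of the
x-coordinates) by the word which records for every vertex between them whether the edge passes above
or below it. Non-homotopic edges get different words, and sign changes of the difference of two words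
force crossings. Now collapse the last vertex onto the one before it. Each word of the new family has
at most three preimages, and the words with more than one preimage end at the new last vertex and, in
two families, have pairwise one sign change less. Doing the same from the other side gives two nested
recursions of Pascal type.
-/

set_option autoImplicit false

namespace Pool.Agent.Results.MP_6a261b_co.MonotoneBound

/-- A drawing in the plane of the multigraph with vertex set `V` and edge set `E` (parallel edges and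
loops are allowed): vertices go to pairwise distinct points, every edge `e` goes to a continuous
curve `[0, 1] → ℝ²` between its end-vertices, a curve contains no vertex point except at its two
end parameters, and any two edges have only finitely many crossings. -/
structure Drawing (V E : Type) where
  /-- the end-vertex of an edge at which its curve starts -/
  src : E → V
  /-- the end-vertex of an edge at which its curve ends -/
  tgt : E → V
  /-- the points representing the vertices -/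
  pos : V → ℝ × ℝ
  pos_injective : Function.Injective pos
  /-- the curves representing the edges -/
  curve : ∀ e : E, Path (pos (src e)) (pos (tgt e))
  curve_ne_vertex : ∀ (e : E) (t : unitInterval), t ≠ 0 → t ≠ 1 → ∀ v : V, curve e t ≠ pos v
  finite_crossings : ∀ e f : E, {p : unitInterval × unitInterval |
    p.1 ≠ 0 ∧ p.1 ≠ 1 ∧ p.2 ≠ 0 ∧ p.2 ≠ 1 ∧ (e, p.1) ≠ (f, p.2) ∧
      curve e p.1 = curve f p.2}.Finite

namespace Drawing

variable {V E : Type} (D : Drawing V E)

/-- The crossings of two edges `e`, `f`: the pairs `(s, t)` of parameters in the open interval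
`(0, 1)` with `φ_e(s) = φ_f(t)` (and `(e, s) ≠ (f, t)`). For `e ≠ f` these are exactly the unordered
pairs `{(e, s), (f, t)}` of the problem. -/
def crossings (e f : E) : Set (unitInterval × unitInterval) :=
  {p | p.1 ≠ 0 ∧ p.1 ≠ 1 ∧ p.2 ≠ 0 ∧ p.2 ≠ 1 ∧ (e, p.1) ≠ (f, p.2) ∧
    D.curve e p.1 = D.curve f p.2}

/-- Every two distinct edges cross at most `k` times. -/
def CrossAtMost (k : ℕ) : Prop := ∀ e f : E, e ≠ f → (D.crossings e f).encard ≤ k

/-- Every edge is x-monotone: its curve meets each vertical line in at most one point. -/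
def Monotone : Prop :=
  ∀ (e : E) (x : ℝ), (Set.range (D.curve e) ∩ {p : ℝ × ℝ | p.1 = x}).Subsingleton

end Drawing

/-- Two curves with the same end points are homotopic in the complement of `O`, with fixed end
points. -/
def Homotopic (a b : unitInterval → ℝ × ℝ) (O : Set (ℝ × ℝ)) : Prop :=
  ∃ H : unitInterval × unitInterval → ℝ × ℝ, Continuous H ∧
    (∀ t, H (0, t) = a t) ∧ (∀ t, H (1, t) = b t) ∧
    (∀ s, H (s, 0) = a 0 ∧ H (s, 1) = a 1) ∧ ∀ p, H p ∉ O

/-- No two parallel edges are homotopic in the complement of the other vertex points. (If two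
parallel edges are traversed in opposite directions, one of the two curves is reversed.) -/
def Drawing.NonHomotopic {V E : Type} (D : Drawing V E) : Prop :=
  ∀ e f : E, e ≠ f →
    (D.src e = D.src f → D.tgt e = D.tgt f →
      ¬ Homotopic (D.curve e) (D.curve f) (D.pos '' {D.src e, D.tgt e}ᶜ)) ∧
    (D.src e = D.tgt f → D.tgt e = D.src f →
      ¬ Homotopic (D.curve e) (fun t => D.curve f (unitInterval.symm t))
        (D.pos '' {D.src e, D.tgt e}ᶜ))

section Words

/-- a word: left end, right end, sign function -/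
abbrev W := ℤ × ℤ × (ℤ → ℤ)

def Valid (e : W) : Prop :=
  e.1 < e.2.1 ∧ ∀ w, ((e.1 < w ∧ w < e.2.1) → (e.2.2 w = 1 ∨ e.2.2 w = -1)) ∧
    (¬ (e.1 < w ∧ w < e.2.1) → e.2.2 w = 0)

def HasAlt (d : ℤ → ℤ) (lo hi : ℤ) (L : ℕ) : Prop :=
  ∃ w : ℕ → ℤ, (∀ i < L, lo ≤ w i ∧ w i ≤ hi ∧ d (w i) ≠ 0) ∧
    ∀ i, i + 1 < L → w i < w (i + 1) ∧ d (w i) * d (w (i + 1)) < 0

def Cr (e f : W) (L : ℕ) : Prop :=
  HasAlt (fun w => e.2.2 w - f.2.2 w) (max e.1 f.1) (min e.2.1 f.2.1) L

def Forb (F : Finset W) (L : ℕ) : Prop := ∀ e ∈ F, ∀ f ∈ F, ¬ Cr e f L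

lemma forb_zero {F : Finset W} (h : Forb F 0) : F = ∅ := by
  rw [Finset.eq_empty_iff_forall_notMem]
  intro e he
  exact h e he e he ⟨fun _ => 0, by simp, by simp⟩

/-- appending one position on the right -/
lemma hasAlt_append {d d' : ℤ → ℤ} {lo hi lo' hi' : ℤ} {L : ℕ} {w : ℕ → ℤ} {x : ℤ}
    (h1 : ∀ i < L, lo ≤ w i ∧ w i ≤ hi ∧ d (w i) ≠ 0)
    (h2 : ∀ i, i + 1 < L → w i < w (i + 1) ∧ d (w i) * d (w (i + 1)) < 0)
    (hlo : lo' ≤ lo) (hhi : hi ≤ hi') (hdd : ∀ i < L, d' (w i) = d (w i))
    (hx1 : lo' ≤ x) (hx2 : x ≤ hi') (hx3 : d' x ≠ 0)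
    (hx4 : ∀ i, i + 1 = L → w i < x ∧ d (w i) * d' x < 0) :
    HasAlt d' lo' hi' (L + 1) := by
  refine ⟨fun i => if i < L then w i else x, ?_, ?_⟩
  · intro i hi1
    by_cases hi2 : i < L
    · simp only [hi2, if_true]
      obtain ⟨a, b, c⟩ := h1 i hi2
      exact ⟨hlo.trans a, b.trans hhi, by rw [hdd i hi2]; exact c⟩
    · simp only [hi2, if_false]
      exact ⟨hx1, hx2, hx3⟩
  · intro i hi1
    have hi2 : i < L := by omega
    by_cases hi3 : i + 1 < L
    · simp only [hi2, hi3, if_true]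
      rw [hdd i hi2, hdd (i + 1) hi3]
      exact h2 i hi3
    · simp only [hi2, hi3, if_true, if_false]
      rw [hdd i hi2]
      exact hx4 i (by omega)

/-- the collapse of the last vertex `m + 1` onto `m` -/
noncomputable def col (m : ℤ) (e : W) : W :=
  if e.2.1 = m + 1 then (e.1, m, fun w => if w < m then e.2.2 w else 0) else e

noncomputable def val (m : ℤ) (e : W) : ℤ := if e.2.1 = m + 1 then e.2.2 m else 0

lemma val_cases {m : ℤ} {e : W} (he : Valid e) (ha : e.1 < m) :
    (val m e = 0 ∧ e.2.1 ≠ m + 1) ∨ ((val m e = 1 ∨ val m e = -1) ∧ e.2.1 = m + 1) := by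
  unfold val
  by_cases h : e.2.1 = m + 1
  · right
    simp only [h, if_true, and_true]
    exact (he.2 m).1 ⟨ha, by omega⟩
  · left
    simp [h]

lemma col_valid {m : ℤ} {e : W} (he : Valid e) (ha : e.1 < m) (hb : e.2.1 ≤ m + 1) :
    Valid (col m e) ∧ (col m e).1 = e.1 ∧ (col m e).2.1 ≤ m ∧ (col m e).2.1 ≤ e.2.1 := by
  unfold col
  by_cases h : e.2.1 = m + 1
  · simp only [h, if_true]
    refine ⟨⟨ha, ?_⟩, trivial, le_refl _, by omega⟩
    intro w
    simp only
    constructor
    · rintro ⟨h1, h2⟩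
      rw [if_pos h2]
      exact (he.2 w).1 ⟨h1, by omega⟩
    · intro h1
      by_cases h2 : w < m
      · rw [if_pos h2]
        exact (he.2 w).2 (by intro hh; exact h1 ⟨hh.1, h2⟩)
      · rw [if_neg h2]
  · simp only [h, if_false]
    exact ⟨he, trivial, by omega, le_refl _⟩

lemma col_s {m : ℤ} {e : W} (_he : Valid e) (_ha : e.1 < m) (_hb : e.2.1 ≤ m + 1) (w : ℤ)
    (hw : (w < m)) : (col m e).2.2 w = e.2.2 w := by
  unfold col
  by_cases h : e.2.1 = m + 1
  · simp only [h, if_true, hw]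
  · simp only [h, if_false]

lemma s_at_m {m : ℤ} {e : W} (he : Valid e) (_ha : e.1 < m) (hb : e.2.1 ≤ m + 1) :
    e.2.2 m = val m e := by
  unfold val
  by_cases h : e.2.1 = m + 1
  · simp only [h, if_true]
  · simp only [h, if_false]
    exact (he.2 m).2 (by intro hh; omega)

lemma col_inj {m : ℤ} {e f : W} (he : Valid e) (hea : e.1 < m) (heb : e.2.1 ≤ m + 1)
    (hf : Valid f) (hfa : f.1 < m) (hfb : f.2.1 ≤ m + 1)
    (h : col m e = col m f) (hv : val m e = val m f) : e = f := by
  have h1 : e.1 = f.1 := by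
    rw [← (col_valid he hea heb).2.1, ← (col_valid hf hfa hfb).2.1, h]
  have h2 : e.2.1 = f.2.1 := by
    rcases val_cases he hea with ⟨a, b⟩ | ⟨a, b⟩ <;> rcases val_cases hf hfa with ⟨c, d⟩ | ⟨c, d⟩
    · have : (col m e).2.1 = e.2.1 := by simp [col, b]
      have h3 : (col m f).2.1 = f.2.1 := by simp [col, d]
      rw [← this, ← h3, h]
    · exfalso; rw [← hv, a] at c; omega
    · exfalso; rw [hv, c] at a; omega
    · rw [b, d]
  have h3 : e.2.2 = f.2.2 := by
    funext w
    rcases lt_trichotomy w m with hw | hw | hw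
    · rw [← col_s he hea heb w hw, ← col_s hf hfa hfb w hw, h]
    · subst hw
      rw [s_at_m he hea heb, s_at_m hf hfa hfb, hv]
    · rw [(he.2 w).2 (by intro hh; omega), (hf.2 w).2 (by intro hh; omega)]
  exact Prod.ext h1 (Prod.ext h2 h3)

lemma s_zero_of_ge {m : ℤ} {e : W} (he : Valid e) (hb : e.2.1 ≤ m) : e.2.2 m = 0 :=
  (he.2 m).2 (by intro hh; omega)

/-- crossings do not increase under the collapse -/
lemma cr_of_col {m : ℤ} {e f : W} (he : Valid e) (hea : e.1 < m) (heb : e.2.1 ≤ m + 1)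
    (hf : Valid f) (hfa : f.1 < m) (hfb : f.2.1 ≤ m + 1) {L : ℕ}
    (h : Cr (col m e) (col m f) L) : Cr e f L := by
  obtain ⟨w, h1, h2⟩ := h
  obtain ⟨ve, ae, be, be'⟩ := col_valid he hea heb
  obtain ⟨vf, af, bf, bf'⟩ := col_valid hf hfa hfb
  have key : ∀ i < L, (e.2.2 (w i) - f.2.2 (w i)) = (col m e).2.2 (w i) - (col m f).2.2 (w i) := by
    intro i hi
    obtain ⟨q1, q2, q3⟩ := h1 i hi
    have hw : w i ≤ m := q2.trans ((min_le_left _ _).trans be)
    rcases lt_or_eq_of_le hw with hw | hw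
    · rw [col_s he hea heb _ hw, col_s hf hfa hfb _ hw]
    · exfalso
      apply q3
      simp only [hw]
      rw [s_zero_of_ge ve be, s_zero_of_ge vf bf]; simp
  refine ⟨w, ?_, ?_⟩
  · intro i hi
    obtain ⟨q1, q2, q3⟩ := h1 i hi
    rw [ae, af] at q1
    refine ⟨q1, q2.trans (min_le_min be' bf'), ?_⟩
    simp only [key i hi]
    exact q3
  · intro i hi
    obtain ⟨q1, q2⟩ := h2 i hi
    refine ⟨q1, ?_⟩
    simp only [key i (by omega), key (i + 1) hi]
    exact q2

/-- an alternating sequence of the collapsed words can be extended -/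
lemma cr_succ_of_col {m : ℤ} {e f e' f' : W} {c c' : W}
    (he : Valid e) (hea : e.1 < m) (heb : e.2.1 ≤ m + 1)
    (hf : Valid f) (hfa : f.1 < m) (hfb : f.2.1 ≤ m + 1)
    (he' : Valid e') (hea' : e'.1 < m) (heb' : e'.2.1 ≤ m + 1)
    (hf' : Valid f') (hfa' : f'.1 < m) (hfb' : f'.2.1 ≤ m + 1)
    (h1 : col m e = c) (h2 : col m f = c') (h3 : col m e' = c) (h4 : col m f' = c')
    (hc : c.2.1 = m) (hc' : c'.2.1 = m)
    (hv : val m f < val m e) (hv' : val m e' < val m f') {L : ℕ}
    (h : Cr c c' L) : Cr e f (L + 1) ∨ Cr e' f' (L + 1) := by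
  obtain ⟨w, q1, q2⟩ := h
  have vc : Valid c := h1 ▸ (col_valid he hea heb).1
  have vc' : Valid c' := h2 ▸ (col_valid hf hfa hfb).1
  have hwm : ∀ i < L, w i < m := by
    intro i hi
    obtain ⟨r1, r2, r3⟩ := q1 i hi
    have hw : w i ≤ m := r2.trans ((min_le_left _ _).trans hc.le)
    rcases lt_or_eq_of_le hw with hw | hw
    · exact hw
    · exfalso
      apply r3
      simp only [hw]
      rw [s_zero_of_ge vc hc.le, s_zero_of_ge vc' hc'.le]; simp
  -- common construction
  have main : ∀ (g k : W), Valid g → g.1 < m → g.2.1 ≤ m + 1 → Valid k → k.1 < m → k.2.1 ≤ m + 1 →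
      col m g = c → col m k = c' → val m g - val m k ≠ 0 →
      (∀ i, i + 1 = L → (c.2.2 (w i) - c'.2.2 (w i)) * (val m g - val m k) < 0) →
      Cr g k (L + 1) := by
    intro g k vg ga gb vk ka kb hg hk hne hop
    obtain ⟨-, ag, -, bg⟩ := col_valid vg ga gb
    obtain ⟨-, ak, -, bk⟩ := col_valid vk ka kb
    rw [hg] at ag bg
    rw [hk] at ak bk
    refine hasAlt_append (d := fun w => c.2.2 w - c'.2.2 w) q1 q2 ?_ ?_ ?_ (x := m) ?_ ?_ ?_ ?_
    · rw [ag, ak]
    · exact min_le_min bg bk
    · intro i hi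
      rw [← hg, ← hk, col_s vg ga gb _ (hwm i hi), col_s vk ka kb _ (hwm i hi)]
    · exact max_le ga.le ka.le
    · rw [hc] at bg; rw [hc'] at bk
      exact le_min bg bk
    · rw [s_at_m vg ga gb, s_at_m vk ka kb]
      exact hne
    · intro i hi
      refine ⟨hwm i (by omega), ?_⟩
      rw [s_at_m vg ga gb, s_at_m vk ka kb]
      exact hop i hi
  rcases Nat.eq_zero_or_pos L with hL | hL
  · left
    subst hL
    exact main e f he hea heb hf hfa hfb h1 h2 (by omega) (by intro i hi; omega)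
  · obtain ⟨j, rfl⟩ : ∃ j, L = j + 1 := ⟨L - 1, by omega⟩
    have r3 := (q1 j (by omega)).2.2
    rcases lt_or_gt_of_ne r3 with r3 | r3
    · left
      refine main e f he hea heb hf hfa hfb h1 h2 (by omega) ?_
      intro i hi
      have : i = j := by omega
      subst this
      exact mul_neg_of_neg_of_pos r3 (by omega)
    · right
      refine main e' f' he' hea' heb' hf' hfa' hfb' h3 h4 (by omega) ?_
      intro i hi
      have : i = j := by omega
      subst this
      exact mul_neg_of_pos_of_neg r3 (by omega)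

/-- the collapse step -/
lemma collapse {m : ℤ} {F : Finset W} (hF : ∀ e ∈ F, Valid e ∧ e.1 < m ∧ e.2.1 ≤ m + 1) {L : ℕ}
    (hL : Forb F L) :
    ∃ C P B : Finset W, F.card ≤ C.card + P.card + B.card ∧
      (∀ c ∈ C, Valid c ∧ c.2.1 ≤ m ∧ ∃ e ∈ F, e.1 = c.1) ∧
      (∀ c ∈ P, Valid c ∧ c.2.1 = m ∧ ∃ e ∈ F, e.1 = c.1) ∧
      (∀ c ∈ B, Valid c ∧ c.2.1 = m ∧ ∃ e ∈ F, e.1 = c.1) ∧
      Forb C L ∧ (∀ L', L = L' + 1 → Forb P L' ∧ Forb B L') ∧
      ((∀ e ∈ F, e.2.1 = m + 1) → B = ∅ ∧ ∀ c ∈ C, c.2.1 = m) := by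
  classical
  set I : ℤ → Finset W := fun v => F.filter (fun e => val m e = v) with hI
  set Cv : ℤ → Finset W := fun v => (I v).image (col m) with hCv
  have hcard : ∀ v, (Cv v).card = (I v).card := by
    intro v
    apply Finset.card_image_of_injOn
    intro e he f hf h
    simp only [hI, Finset.coe_filter, Set.mem_ofPred_eq] at he hf
    obtain ⟨e1, e2, e3⟩ := hF e he.1
    obtain ⟨f1, f2, f3⟩ := hF f hf.1
    exact col_inj e1 e2 e3 f1 f2 f3 h (he.2.trans hf.2.symm)
  have hmem : ∀ v c, c ∈ Cv v ↔ ∃ e ∈ F, val m e = v ∧ col m e = c := by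
    intro v c
    simp only [hCv, hI, Finset.mem_image, Finset.mem_filter]
    constructor
    · rintro ⟨e, ⟨a, b⟩, c⟩; exact ⟨e, a, b, c⟩
    · rintro ⟨e, a, b, c⟩; exact ⟨e, ⟨a, b⟩, c⟩
  have hsum : F.card ≤ (I 1).card + ((I 0).card + (I (-1)).card) := by
    have : F ⊆ I 1 ∪ (I 0 ∪ I (-1)) := by
      intro e he
      obtain ⟨e1, e2, e3⟩ := hF e he
      simp only [hI, Finset.mem_union, Finset.mem_filter, he, true_and]
      rcases val_cases e1 e2 with ⟨a, -⟩ | ⟨a | a, -⟩ <;> simp [a]
    calc F.card ≤ (I 1 ∪ (I 0 ∪ I (-1))).card := Finset.card_le_card this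
      _ ≤ (I 1).card + (I 0 ∪ I (-1)).card := Finset.card_union_le _ _
      _ ≤ _ := by
        have := Finset.card_union_le (I 0) (I (-1))
        omega
  have hlast : ∀ v, v ≠ 0 → ∀ c ∈ Cv v, c.2.1 = m := by
    intro v hv c hc
    obtain ⟨e, he, hve, rfl⟩ := (hmem v c).1 hc
    obtain ⟨e1, e2, e3⟩ := hF e he
    rcases val_cases e1 e2 with ⟨a, -⟩ | ⟨-, b⟩
    · exact absurd (hve.symm.trans a) hv
    · simp [col, b]
  have hbase : ∀ v, ∀ c ∈ Cv v, Valid c ∧ c.2.1 ≤ m ∧ ∃ e ∈ F, e.1 = c.1 := by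
    intro v c hc
    obtain ⟨e, he, hve, rfl⟩ := (hmem v c).1 hc
    obtain ⟨e1, e2, e3⟩ := hF e he
    obtain ⟨q1, q2, q3, q4⟩ := col_valid e1 e2 e3
    exact ⟨q1, q3, e, he, q2.symm⟩
  refine ⟨Cv 1 ∪ (Cv 0 ∪ Cv (-1)), Cv 1 ∩ (Cv 0 ∪ Cv (-1)), Cv 0 ∩ Cv (-1), ?_, ?_, ?_, ?_, ?_, ?_, ?_⟩
  · have h1 := Finset.card_union_add_card_inter (Cv 1) (Cv 0 ∪ Cv (-1))
    have h2 := Finset.card_union_add_card_inter (Cv 0) (Cv (-1))
    have h3 := hcard 1
    have h4 := hcard 0
    have h5 := hcard (-1)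
    omega
  · intro c hc
    rw [Finset.mem_union, Finset.mem_union] at hc
    rcases hc with hc | hc | hc
    · exact hbase _ c hc
    · exact hbase _ c hc
    · exact hbase _ c hc
  · intro c hc
    rw [Finset.mem_inter] at hc
    obtain ⟨a, b, d⟩ := hbase _ c hc.1
    exact ⟨a, hlast 1 (by norm_num) c hc.1, d⟩
  · intro c hc
    rw [Finset.mem_inter] at hc
    obtain ⟨a, b, d⟩ := hbase _ c hc.2
    exact ⟨a, hlast (-1) (by norm_num) c hc.2, d⟩
  · intro c hc c' hc' hcr
    have aux : ∀ c ∈ Cv 1 ∪ (Cv 0 ∪ Cv (-1)), ∃ e ∈ F, col m e = c := by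
      intro c hc
      rw [Finset.mem_union, Finset.mem_union] at hc
      rcases hc with hc | hc | hc <;> obtain ⟨e, he, -, h⟩ := (hmem _ c).1 hc <;> exact ⟨e, he, h⟩
    obtain ⟨e, he, rfl⟩ := aux c hc
    obtain ⟨f, hf, rfl⟩ := aux c' hc'
    obtain ⟨e1, e2, e3⟩ := hF e he
    obtain ⟨f1, f2, f3⟩ := hF f hf
    exact hL e he f hf (cr_of_col e1 e2 e3 f1 f2 f3 hcr)
  · intro L' hL'
    have fin : ∀ c c' : W, c.2.1 = m → c'.2.1 = m →
        (∃ e ∈ F, ∃ f ∈ F, col m e = c ∧ col m f = c' ∧ val m f < val m e) →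
        (∃ e ∈ F, ∃ f ∈ F, col m e = c ∧ col m f = c' ∧ val m e < val m f) → ¬ Cr c c' L' := by
      intro c c' hc hc' ⟨e, he, f, hf, h1, h2, h3⟩ ⟨e', he', f', hf', h1', h2', h3'⟩ hcr
      obtain ⟨e1, e2, e3⟩ := hF e he
      obtain ⟨f1, f2, f3⟩ := hF f hf
      obtain ⟨e1', e2', e3'⟩ := hF e' he'
      obtain ⟨f1', f2', f3'⟩ := hF f' hf'
      have := cr_succ_of_col e1 e2 e3 f1 f2 f3 e1' e2' e3' f1' f2' f3' h1 h2 h1' h2' hc hc' h3 h3' hcr
      rw [← hL'] at this
      rcases this with h | h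
      · exact hL e he f hf h
      · exact hL e' he' f' hf' h
    constructor
    · intro c hc c' hc'
      rw [Finset.mem_inter, Finset.mem_union] at hc hc'
      have hcm := hlast 1 (by norm_num) c hc.1
      have hcm' := hlast 1 (by norm_num) c' hc'.1
      obtain ⟨e, he, hve, hec⟩ := (hmem _ _).1 hc.1
      obtain ⟨f, hf, hvf, hfc⟩ := (hmem _ _).1 hc'.1
      have low : ∀ c, (c ∈ Cv 0 ∨ c ∈ Cv (-1)) → ∃ g ∈ F, col m g = c ∧ val m g < 1 := by
        intro c hc
        rcases hc with hc | hc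
        · obtain ⟨g, hg, hvg, hgc⟩ := (hmem _ _).1 hc
          exact ⟨g, hg, hgc, by omega⟩
        · obtain ⟨g, hg, hvg, hgc⟩ := (hmem _ _).1 hc
          exact ⟨g, hg, hgc, by omega⟩
      obtain ⟨g, hg, hgc, hvg⟩ := low c hc.2
      obtain ⟨g', hg', hgc', hvg'⟩ := low c' hc'.2
      exact fin c c' hcm hcm' ⟨e, he, g', hg', hec, hgc', by omega⟩ ⟨g, hg, f, hf, hgc, hfc, by omega⟩
    · intro c hc c' hc'
      rw [Finset.mem_inter] at hc hc'
      have hcm := hlast (-1) (by norm_num) c hc.2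
      have hcm' := hlast (-1) (by norm_num) c' hc'.2
      obtain ⟨e, he, hve, hec⟩ := (hmem _ _).1 hc.1
      obtain ⟨f, hf, hvf, hfc⟩ := (hmem _ _).1 hc'.1
      obtain ⟨g, hg, hvg, hgc⟩ := (hmem _ _).1 hc.2
      obtain ⟨g', hg', hvg', hgc'⟩ := (hmem _ _).1 hc'.2
      exact fin c c' hcm hcm' ⟨e, he, g', hg', hec, hgc', by omega⟩ ⟨g, hg, f, hf, hgc, hfc, by omega⟩
  · intro hall
    have h0 : Cv 0 = ∅ := by
      rw [Finset.eq_empty_iff_forall_notMem]
      intro c hc
      obtain ⟨e, he, hve, rfl⟩ := (hmem _ _).1 hc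
      obtain ⟨e1, e2, e3⟩ := hF e he
      rcases val_cases e1 e2 with ⟨-, b⟩ | ⟨b | b, -⟩
      · exact b (hall e he)
      · omega
      · omega
    refine ⟨by rw [h0]; simp, ?_⟩
    intro c hc
    rw [h0, Finset.empty_union, Finset.mem_union] at hc
    rcases hc with hc | hc
    · exact hlast _ (by norm_num) c hc
    · exact hlast _ (by norm_num) c hc

/-- both ends fixed -/
lemma boundK (m : ℕ) : ∀ (L : ℕ) (F : Finset W),
    (∀ e ∈ F, Valid e ∧ e.1 = 0 ∧ e.2.1 = m) → Forb F L →
      F.card ≤ ∑ i ∈ Finset.range L, m.choose i := by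
  induction m with
  | zero =>
    intro L F hF hL
    have : F = ∅ := by
      rw [Finset.eq_empty_iff_forall_notMem]
      intro e he
      obtain ⟨h1, h2, h3⟩ := hF e he
      have := h1.1
      simp only [Nat.cast_zero] at h3
      omega
    simp [this]
  | succ m ih =>
    intro L F hF hL
    rcases Nat.eq_zero_or_pos L with h0 | h0
    · subst h0
      rw [forb_zero hL]; simp
    obtain ⟨L', rfl⟩ : ∃ L', L = L' + 1 := ⟨L - 1, by omega⟩
    rcases Nat.eq_zero_or_pos m with hm | hm
    · subst hm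
      have hc : F.card ≤ 1 := by
        rw [Finset.card_le_one]
        intro e he f hf
        obtain ⟨e1, e2, e3⟩ := hF e he
        obtain ⟨f1, f2, f3⟩ := hF f hf
        refine Prod.ext (e2.trans f2.symm) (Prod.ext (e3.trans f3.symm) ?_)
        funext w
        rw [(e1.2 w).2 (by push_cast at e3; omega), (f1.2 w).2 (by push_cast at f3; omega)]
      have h1 : 1 ≤ ∑ i ∈ Finset.range (L' + 1), (0 + 1).choose i := by
        rw [Finset.sum_range_succ']
        simp
      omega
    · obtain ⟨C, P, B, hcard, hC, hP, hB, hfC, hfPB, hall⟩ := collapse (m := (m : ℤ)) (F := F)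
        (by
          intro e he
          obtain ⟨e1, e2, e3⟩ := hF e he
          push_cast at e3
          exact ⟨e1, by omega, by omega⟩) hL
      obtain ⟨hB0, hCm⟩ := hall (by
        intro e he
        have := (hF e he).2.2
        push_cast at this
        exact this)
      have hCK := ih (L' + 1) C (by
        intro c hc
        obtain ⟨a, b, e, he, hec⟩ := hC c hc
        exact ⟨a, by rw [← hec]; exact (hF e he).2.1, hCm c hc⟩) hfC
      have hPK := ih L' P (by
        intro c hc
        obtain ⟨a, b, e, he, hec⟩ := hP c hc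
        exact ⟨a, by rw [← hec]; exact (hF e he).2.1, b⟩) (hfPB L' rfl).1
      have hsum : ∑ i ∈ Finset.range (L' + 1), (m + 1).choose i
          = ∑ i ∈ Finset.range (L' + 1), m.choose i + ∑ i ∈ Finset.range L', m.choose i := by
        rw [Finset.sum_range_succ', Finset.sum_range_succ' (fun i => m.choose i)]
        simp only [Nat.choose_succ_succ, Finset.sum_add_distrib, Nat.choose_zero_right,
          Nat.succ_eq_add_one]
        omega
      rw [hB0, Finset.card_empty] at hcard
      omega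

/-- left end fixed -/
lemma boundG (m : ℕ) : ∀ (L : ℕ) (F : Finset W),
    (∀ e ∈ F, Valid e ∧ e.1 = 0 ∧ e.2.1 ≤ m) → Forb F L →
      F.card ≤ 2 * ∑ i ∈ Finset.range L, m.choose i := by
  induction m with
  | zero =>
    intro L F hF hL
    have : F = ∅ := by
      rw [Finset.eq_empty_iff_forall_notMem]
      intro e he
      obtain ⟨h1, h2, h3⟩ := hF e he
      have := h1.1
      simp only [Nat.cast_zero] at h3
      omega
    simp [this]
  | succ m ih =>
    intro L F hF hL
    rcases Nat.eq_zero_or_pos L with h0 | h0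
    · subst h0
      rw [forb_zero hL]; simp
    obtain ⟨L', rfl⟩ : ∃ L', L = L' + 1 := ⟨L - 1, by omega⟩
    rcases Nat.eq_zero_or_pos m with hm | hm
    · subst hm
      have hc : F.card ≤ 1 := by
        rw [Finset.card_le_one]
        intro e he f hf
        obtain ⟨e1, e2, e3⟩ := hF e he
        obtain ⟨f1, f2, f3⟩ := hF f hf
        push_cast at e3 f3
        have e4 := e1.1
        have f4 := f1.1
        refine Prod.ext (e2.trans f2.symm) (Prod.ext (by omega) ?_)
        funext w
        rw [(e1.2 w).2 (by omega), (f1.2 w).2 (by omega)]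
      have h1 : 1 ≤ ∑ i ∈ Finset.range (L' + 1), (0 + 1).choose i := by
        rw [Finset.sum_range_succ']
        simp
      omega
    · obtain ⟨C, P, B, hcard, hC, hP, hB, hfC, hfPB, hall⟩ := collapse (m := (m : ℤ)) (F := F)
        (by
          intro e he
          obtain ⟨e1, e2, e3⟩ := hF e he
          push_cast at e3
          exact ⟨e1, by omega, by omega⟩) hL
      have hCK := ih (L' + 1) C (by
        intro c hc
        obtain ⟨a, b, e, he, hec⟩ := hC c hc
        exact ⟨a, by rw [← hec]; exact (hF e he).2.1, b⟩) hfC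
      have hPK := boundK m L' P (by
        intro c hc
        obtain ⟨a, b, e, he, hec⟩ := hP c hc
        exact ⟨a, by rw [← hec]; exact (hF e he).2.1, b⟩) (hfPB L' rfl).1
      have hBK := boundK m L' B (by
        intro c hc
        obtain ⟨a, b, e, he, hec⟩ := hB c hc
        exact ⟨a, by rw [← hec]; exact (hF e he).2.1, b⟩) (hfPB L' rfl).2
      have hsum : ∑ i ∈ Finset.range (L' + 1), (m + 1).choose i
          = ∑ i ∈ Finset.range (L' + 1), m.choose i + ∑ i ∈ Finset.range L', m.choose i := by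
        rw [Finset.sum_range_succ', Finset.sum_range_succ' (fun i => m.choose i)]
        simp only [Nat.choose_succ_succ, Finset.sum_add_distrib, Nat.choose_zero_right,
          Nat.succ_eq_add_one]
        omega
      omega

/-- the reflection -/
def refl (m : ℤ) (e : W) : W := (m - e.2.1, m - e.1, fun w => e.2.2 (m - w))

lemma refl_refl (m : ℤ) (e : W) : refl m (refl m e) = e := by
  unfold refl
  refine Prod.ext (by simp) (Prod.ext (by simp) ?_)
  funext w
  simp

lemma refl_valid {m : ℤ} {e : W} (he : Valid e) : Valid (refl m e) := by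
  obtain ⟨h1, h2⟩ := he
  refine ⟨?_, ?_⟩
  · show m - e.2.1 < m - e.1
    omega
  · intro w
    constructor
    · rintro ⟨a, b⟩
      have a' : m - e.2.1 < w := a
      have b' : w < m - e.1 := b
      exact (h2 (m - w)).1 ⟨by omega, by omega⟩
    · intro h
      refine (h2 (m - w)).2 ?_
      intro hh
      apply h
      show m - e.2.1 < w ∧ w < m - e.1
      omega

lemma cr_refl {m : ℤ} {e f : W} {L : ℕ} (h : Cr (refl m e) (refl m f) L) : Cr e f L := by
  obtain ⟨w, h1, h2⟩ := h
  refine ⟨fun i => m - w (L - 1 - i), ?_, ?_⟩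
  · intro i hi
    obtain ⟨a, b, c⟩ := h1 (L - 1 - i) (by omega)
    refine ⟨?_, ?_, c⟩
    · have b' : w (L - 1 - i) ≤ min (m - e.1) (m - f.1) := b
      rw [le_min_iff] at b'
      show max e.1 f.1 ≤ m - w (L - 1 - i)
      rw [max_le_iff]
      constructor <;> omega
    · have a' : max (m - e.2.1) (m - f.2.1) ≤ w (L - 1 - i) := a
      rw [max_le_iff] at a'
      show m - w (L - 1 - i) ≤ min e.2.1 f.2.1
      rw [le_min_iff]
      constructor <;> omega
  · intro i hi
    obtain ⟨j, hj⟩ : ∃ j, j = L - 1 - (i + 1) := ⟨_, rfl⟩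
    have hj2 : L - 1 - i = j + 1 := by omega
    obtain ⟨a, b⟩ := h2 j (by omega)
    show m - w (L - 1 - i) < m - w (L - 1 - (i + 1)) ∧
      (e.2.2 (m - w (L - 1 - i)) - f.2.2 (m - w (L - 1 - i))) *
      (e.2.2 (m - w (L - 1 - (i + 1))) - f.2.2 (m - w (L - 1 - (i + 1)))) < 0
    rw [← hj, hj2]
    refine ⟨by omega, ?_⟩
    have b' : (e.2.2 (m - w j) - f.2.2 (m - w j)) *
      (e.2.2 (m - w (j + 1)) - f.2.2 (m - w (j + 1))) < 0 := b
    calc _ = (e.2.2 (m - w j) - f.2.2 (m - w j)) *
      (e.2.2 (m - w (j + 1)) - f.2.2 (m - w (j + 1))) := by ring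
      _ < 0 := b'

/-- right end fixed -/
lemma boundG' (m : ℕ) (L : ℕ) (F : Finset W)
    (hF : ∀ e ∈ F, Valid e ∧ 0 ≤ e.1 ∧ e.2.1 = m) (hL : Forb F L) :
      F.card ≤ 2 * ∑ i ∈ Finset.range L, m.choose i := by
  classical
  have h1 : (F.image (refl m)).card = F.card := by
    apply Finset.card_image_of_injective
    intro e f h
    rw [← refl_refl m e, h, refl_refl]
  rw [← h1]
  apply boundG m L
  · intro c hc
    obtain ⟨e, he, rfl⟩ := Finset.mem_image.1 hc
    obtain ⟨e1, e2, e3⟩ := hF e he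
    refine ⟨refl_valid e1, ?_, ?_⟩
    · show (m : ℤ) - e.2.1 = 0
      omega
    · show (m : ℤ) - e.1 ≤ m
      omega
  · intro c hc c' hc' h
    obtain ⟨e, he, rfl⟩ := Finset.mem_image.1 hc
    obtain ⟨f, hf, rfl⟩ := Finset.mem_image.1 hc'
    exact hL e he f hf (cr_refl h)

/-- the main bound for words -/
theorem boundH (m : ℕ) : ∀ (L : ℕ) (F : Finset W),
    (∀ e ∈ F, Valid e ∧ 0 ≤ e.1 ∧ e.2.1 ≤ m) → Forb F (L + 1) →
      F.card ≤ m + 4 * ∑ i ∈ Finset.range L, m.choose (i + 1) := by
  classical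
  induction m with
  | zero =>
    intro L F hF hL
    have : F = ∅ := by
      rw [Finset.eq_empty_iff_forall_notMem]
      intro e he
      obtain ⟨h1, h2, h3⟩ := hF e he
      have := h1.1
      simp only [Nat.cast_zero] at h3
      omega
    simp [this]
  | succ m ih =>
    intro L F hF hL
    set F0 := F.filter (fun e => e.1 < (m : ℤ)) with hF0
    have hc1 : F.card ≤ F0.card + 1 := by
      have : (F.filter (fun e => ¬ e.1 < (m : ℤ))).card ≤ 1 := by
        rw [Finset.card_le_one]
        intro e he f hf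
        rw [Finset.mem_filter] at he hf
        obtain ⟨e1, e2, e3⟩ := hF e he.1
        obtain ⟨f1, f2, f3⟩ := hF f hf.1
        push_cast at e3 f3
        have e4 := e1.1
        have f4 := f1.1
        have e5 := he.2
        have f5 := hf.2
        refine Prod.ext (by omega) (Prod.ext (by omega) ?_)
        funext w
        rw [(e1.2 w).2 (by omega), (f1.2 w).2 (by omega)]
      have h2 := Finset.card_filter_add_card_filter_not (s := F) (fun e => e.1 < (m : ℤ))
      rw [← hF0] at h2
      omega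
    obtain ⟨C, P, B, hcard, hC, hP, hB, hfC, hfPB, hall⟩ := collapse (m := (m : ℤ)) (F := F0)
        (by
          intro e he
          rw [hF0, Finset.mem_filter] at he
          obtain ⟨e1, e2, e3⟩ := hF e he.1
          push_cast at e3
          exact ⟨e1, he.2, by omega⟩) (L := L + 1) (by
            intro e he f hf
            rw [hF0, Finset.mem_filter] at he hf
            exact hL e he.1 f hf.1)
    have hCK := ih L C (by
      intro c hc
      obtain ⟨a, b, e, he, hec⟩ := hC c hc
      rw [hF0, Finset.mem_filter] at he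
      exact ⟨a, by rw [← hec]; exact (hF e he.1).2.1, b⟩) hfC
    have hPK := boundG' m L P (by
      intro c hc
      obtain ⟨a, b, e, he, hec⟩ := hP c hc
      rw [hF0, Finset.mem_filter] at he
      exact ⟨a, by rw [← hec]; exact (hF e he.1).2.1, b⟩) (hfPB L rfl).1
    have hBK := boundG' m L B (by
      intro c hc
      obtain ⟨a, b, e, he, hec⟩ := hB c hc
      rw [hF0, Finset.mem_filter] at he
      exact ⟨a, by rw [← hec]; exact (hF e he.1).2.1, b⟩) (hfPB L rfl).2
    have hsum : ∑ i ∈ Finset.range L, (m + 1).choose (i + 1)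
          = ∑ i ∈ Finset.range L, m.choose i + ∑ i ∈ Finset.range L, m.choose (i + 1) := by
      rw [← Finset.sum_add_distrib]
      apply Finset.sum_congr rfl
      intro i _
      rw [Nat.choose_succ_succ]
    omega

end Words


section Geometry

lemma lt_convex {y a b s : ℝ} (hs0 : 0 ≤ s) (hs1 : s ≤ 1) (ha : y < a) (hb : y < b) :
    y < (1 - s) * a + s * b := by
  rcases le_total a b with h | h
  · nlinarith [mul_nonneg hs0 (sub_nonneg.2 h)]
  · nlinarith [mul_nonneg (sub_nonneg.2 hs1) (sub_nonneg.2 h)]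

lemma convex_lt {y a b s : ℝ} (hs0 : 0 ≤ s) (hs1 : s ≤ 1) (ha : a < y) (hb : b < y) :
    (1 - s) * a + s * b < y := by
  rcases le_total a b with h | h
  · nlinarith [mul_nonneg (sub_nonneg.2 hs1) (sub_nonneg.2 h)]
  · nlinarith [mul_nonneg hs0 (sub_nonneg.2 h)]

/-- straight-line homotopy between two graphs -/
lemma homotopic_of_graphs {a b : unitInterval → ℝ × ℝ} (ha : Continuous a) (hb : Continuous b)
    (h0 : a 0 = b 0) (h1 : a 1 = b 1) {g g' : ℝ → ℝ} (hg : Continuous g) (hg' : Continuous g')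
    (hga : ∀ t, g (a t).1 = (a t).2) (hgb : ∀ t, g' (b t).1 = (b t).2)
    {α β : ℝ} (hαa : ∀ t, (a t).1 ∈ Set.Icc α β) (hαb : ∀ t, (b t).1 ∈ Set.Icc α β)
    {O : Set (ℝ × ℝ)}
    (hO : ∀ p ∈ O, p.1 ∈ Set.Icc α β → (p.2 < g p.1 ∧ p.2 < g' p.1) ∨ (g p.1 < p.2 ∧ g' p.1 < p.2)) :
    Homotopic a b O := by
  let X : unitInterval × unitInterval → ℝ := fun p =>
    (1 - (p.1 : ℝ)) * (a p.2).1 + (p.1 : ℝ) * (b p.2).1
  have hX : Continuous X := by
    have h1 : Continuous (fun p : unitInterval × unitInterval => (p.1 : ℝ)) :=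
      continuous_subtype_val.comp continuous_fst
    have h2 : Continuous (fun p : unitInterval × unitInterval => (a p.2).1) :=
      continuous_fst.comp (ha.comp continuous_snd)
    have h3 : Continuous (fun p : unitInterval × unitInterval => (b p.2).1) :=
      continuous_fst.comp (hb.comp continuous_snd)
    exact ((continuous_const.sub h1).mul h2).add (h1.mul h3)
  refine ⟨fun p => (X p, (1 - (p.1 : ℝ)) * g (X p) + (p.1 : ℝ) * g' (X p)), ?_, ?_, ?_, ?_, ?_⟩
  · have h1 : Continuous (fun p : unitInterval × unitInterval => (p.1 : ℝ)) :=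
      continuous_subtype_val.comp continuous_fst
    exact hX.prodMk (((continuous_const.sub h1).mul (hg.comp hX)).add (h1.mul (hg'.comp hX)))
  · intro t
    have : X (0, t) = (a t).1 := by simp [X]
    refine Prod.ext this ?_
    simp only [this, hga]
    simp
  · intro t
    have : X (1, t) = (b t).1 := by simp [X]
    refine Prod.ext this ?_
    simp only [this, hgb]
    simp
  · intro s
    constructor
    · have : X (s, 0) = (a 0).1 := by simp only [X, ← h0]; ring
      refine Prod.ext this ?_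
      simp only [this, hga]
      have h2 : g' (a 0).1 = (a 0).2 := by rw [h0]; exact hgb 0
      rw [h2]; ring
    · have : X (s, 1) = (a 1).1 := by simp only [X, ← h1]; ring
      refine Prod.ext this ?_
      simp only [this, hga]
      have h2 : g' (a 1).1 = (a 1).2 := by rw [h1]; exact hgb 1
      rw [h2]; ring
  · rintro ⟨s, t⟩ hp
    have hs0 : (0 : ℝ) ≤ s := s.2.1
    have hs1 : (s : ℝ) ≤ 1 := s.2.2
    have hXI : X (s, t) ∈ Set.Icc α β := by
      obtain ⟨q1, q2⟩ := hαa t
      obtain ⟨q3, q4⟩ := hαb t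
      simp only [X]
      constructor
      · nlinarith
      · nlinarith
    rcases hO _ hp hXI with ⟨q1, q2⟩ | ⟨q1, q2⟩
    · exact lt_irrefl _ (lt_convex hs0 hs1 q1 q2)
    · exact lt_irrefl _ (convex_lt hs0 hs1 q1 q2)

variable {V E : Type} {D : Drawing V E}

lemma x_injOn (hM : D.Monotone) (e : E) :
    Set.InjOn (fun t : ℝ => ((D.curve e).extend t).1) (Set.Icc 0 1) := by
  -- it suffices to treat s < t
  have main : ∀ s t : ℝ, s ∈ Set.Icc (0 : ℝ) 1 → t ∈ Set.Icc (0 : ℝ) 1 → s < t →
      ((D.curve e).extend s).1 = ((D.curve e).extend t).1 → False := by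
    intro s t hs ht hst hx
    set x : ℝ → ℝ := fun t => ((D.curve e).extend t).1 with hxdef
    have hcont : Continuous x := continuous_fst.comp (D.curve e).continuous_extend
    set A : Set ℝ := {p | p ∈ Set.Ioo s t ∧ ∃ q ∈ Set.Ioo s t, q ≠ p ∧ x q = x p} with hA
    have hAinf : A.Infinite := by
      by_cases hc : ∀ r ∈ Set.Ioo s t, x r = x s
      · have : Set.Ioo s t ⊆ A := by
          intro p hp
          refine ⟨hp, ?_⟩
          have : ((s + p) / 2) ∈ Set.Ioo s t := ⟨by linarith [hp.1], by linarith [hp.1, hp.2]⟩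
          exact ⟨(s + p) / 2, this, by intro h; linarith [hp.1], by rw [hc _ this, hc _ hp]⟩
        exact (Set.Ioo_infinite hst).mono this
      · push Not at hc
        obtain ⟨m, hm, hxm⟩ := hc
        have hx' : x s = x t := hx
        rcases lt_or_gt_of_ne hxm with h | h
        · have : Set.Ioo (x m) (x s) ⊆ x '' A := by
            intro c hc
            obtain ⟨p, hp, hpc⟩ := intermediate_value_Ioo' hm.1.le hcont.continuousOn hc
            rw [hx'] at hc
            obtain ⟨q, hq, hqc⟩ := intermediate_value_Ioo hm.2.le hcont.continuousOn hc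
            exact ⟨p, ⟨⟨hp.1, hp.2.trans hm.2⟩, q, ⟨hm.1.trans hq.1, hq.2⟩,
              by intro h; rw [h] at hq; linarith [hp.2, hq.1], hqc.trans hpc.symm⟩, hpc⟩
          exact ((Set.Ioo_infinite h).mono this).of_image _
        · have : Set.Ioo (x s) (x m) ⊆ x '' A := by
            intro c hc
            obtain ⟨p, hp, hpc⟩ := intermediate_value_Ioo hm.1.le hcont.continuousOn hc
            rw [hx'] at hc
            obtain ⟨q, hq, hqc⟩ := intermediate_value_Ioo' hm.2.le hcont.continuousOn hc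
            exact ⟨p, ⟨⟨hp.1, hp.2.trans hm.2⟩, q, ⟨hm.1.trans hq.1, hq.2⟩,
              by intro h; rw [h] at hq; linarith [hp.2, hq.1], hqc.trans hpc.symm⟩, hpc⟩
          exact ((Set.Ioo_infinite h).mono this).of_image _
    apply hAinf
    refine ((D.finite_crossings e e).image (fun p => (p.1 : ℝ))).subset ?_
    rintro p ⟨hp, q, hq, hqp, hxq⟩
    have hp01 : p ∈ Set.Icc (0 : ℝ) 1 := ⟨by linarith [hs.1, hp.1], by linarith [ht.2, hp.2]⟩
    have hq01 : q ∈ Set.Icc (0 : ℝ) 1 := ⟨by linarith [hs.1, hq.1], by linarith [ht.2, hq.2]⟩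
    have hpe : (D.curve e).extend p = D.curve e ⟨p, hp01⟩ := Path.extend_apply _ hp01
    have hqe : (D.curve e).extend q = D.curve e ⟨q, hq01⟩ := Path.extend_apply _ hq01
    refine ⟨(⟨p, hp01⟩, ⟨q, hq01⟩), ⟨?_, ?_, ?_, ?_, ?_, ?_⟩, rfl⟩
    · intro h
      have := congrArg Subtype.val h
      simp only at this
      have h2 : p = 0 := this
      linarith [hs.1, hp.1]
    · intro h
      have := congrArg Subtype.val h
      have h2 : p = 1 := this
      linarith [ht.2, hp.2]
    · intro h
      have := congrArg Subtype.val h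
      have h2 : q = 0 := this
      linarith [hs.1, hq.1]
    · intro h
      have := congrArg Subtype.val h
      have h2 : q = 1 := this
      linarith [ht.2, hq.2]
    · intro h
      have h2 := congrArg (fun z => ((z.2 : unitInterval) : ℝ)) h
      exact hqp h2.symm
    · refine hM e (x p) ⟨⟨_, rfl⟩, ?_⟩ ⟨⟨_, rfl⟩, ?_⟩
      · show (D.curve e ⟨p, hp01⟩).1 = x p
        rw [← hpe]
      · show (D.curve e ⟨q, hq01⟩).1 = x p
        rw [← hqe, ← hxq]
  intro s hs t ht hx
  rcases lt_trichotomy s t with h | h | h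
  · exact (main s t hs ht h hx).elim
  · exact h
  · exact (main t s ht hs h hx.symm).elim

/-- the basic data of an x-monotone edge -/
lemma edge_data (hM : D.Monotone) (e : E) :
    ∃ g : ℝ → ℝ, Continuous g ∧ (∀ t, g (D.curve e t).1 = (D.curve e t).2) ∧
      (D.pos (D.src e)).1 ≠ (D.pos (D.tgt e)).1 ∧
      (∀ t, (D.curve e t).1 ∈ Set.uIcc (D.pos (D.src e)).1 (D.pos (D.tgt e)).1) ∧
      (∀ c ∈ Set.uIcc (D.pos (D.src e)).1 (D.pos (D.tgt e)).1, ∃ t, (D.curve e t).1 = c) := by
  have hinj := x_injOn hM e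
  set x : ℝ → ℝ := fun t => ((D.curve e).extend t).1 with hxdef
  have hcont : Continuous x := continuous_fst.comp (D.curve e).continuous_extend
  have hx0 : x 0 = (D.pos (D.src e)).1 := by simp [hxdef]
  have hx1 : x 1 = (D.pos (D.tgt e)).1 := by simp [hxdef]
  have hxt : ∀ t : unitInterval, x t = (D.curve e t).1 := by
    intro t
    simp only [hxdef]
    rw [Path.extend_apply _ t.2]
  have hinjU : Function.Injective (fun t : unitInterval => (D.curve e t).1) := by
    intro s t h
    have h' : x s = x t := by rw [hxt, hxt]; exact h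
    exact Subtype.ext (hinj s.2 t.2 h')
  have hcU : Continuous (fun t : unitInterval => (D.curve e t).1) :=
    continuous_fst.comp (D.curve e).continuous
  have hemb : Topology.IsClosedEmbedding (fun t : unitInterval => (D.curve e t).1) :=
    hcU.isClosedEmbedding hinjU
  obtain ⟨G, hG⟩ := ContinuousMap.exists_extension' hemb
    (⟨fun t : unitInterval => (D.curve e t).2, continuous_snd.comp (D.curve e).continuous⟩ :
      C(unitInterval, ℝ))
  refine ⟨G, G.continuous, ?_, ?_, ?_, ?_⟩
  · intro t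
    exact congrFun hG t
  · rw [← hx0, ← hx1]
    intro h
    have := hinj (by simp) (by simp) h
    norm_num at this
  · intro t
    rw [← hxt, ← hx0, ← hx1]
    have ht0 : (0 : ℝ) ≤ t := t.2.1
    have ht1 : (t : ℝ) ≤ 1 := t.2.2
    rcases hcont.continuousOn.strictMonoOn_of_injOn_Icc' zero_le_one hinj with h | h
    · rw [Set.mem_uIcc]
      left
      exact ⟨h.monotoneOn (by simp) t.2 ht0, h.monotoneOn t.2 (by simp) ht1⟩
    · rw [Set.mem_uIcc]
      right
      exact ⟨h.antitoneOn t.2 (by simp) ht1, h.antitoneOn (by simp) t.2 ht0⟩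
  · intro c hc
    rw [← hx0, ← hx1] at hc
    have := intermediate_value_uIcc (a := 0) (b := 1) (f := x) hcont.continuousOn hc
    obtain ⟨t, ht, htc⟩ := this
    rw [Set.uIcc_of_le zero_le_one] at ht
    exact ⟨⟨t, ht⟩, by rw [← hxt]; exact htc⟩

/-- the order of the vertices by the x-coordinate, ties are broken by the y-coordinate -/
def R (D : Drawing V E) (u v : V) : Prop :=
  (D.pos u).1 < (D.pos v).1 ∨ ((D.pos u).1 = (D.pos v).1 ∧ (D.pos u).2 < (D.pos v).2)

lemma R_trans {u v w : V} (h1 : R D u v) (h2 : R D v w) : R D u w := by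
  rcases h1 with h1 | ⟨h1, h1'⟩ <;> rcases h2 with h2 | ⟨h2, h2'⟩
  · exact Or.inl (h1.trans h2)
  · exact Or.inl (h2 ▸ h1)
  · exact Or.inl (h1 ▸ h2)
  · exact Or.inr ⟨h1.trans h2, h1'.trans h2'⟩

lemma R_irrefl (u : V) : ¬ R D u u := by
  rintro (h | ⟨-, h⟩) <;> exact lt_irrefl _ h

lemma R_tri (u v : V) : R D u v ∨ u = v ∨ R D v u := by
  rcases lt_trichotomy (D.pos u).1 (D.pos v).1 with h | h | h
  · exact Or.inl (Or.inl h)
  · rcases lt_trichotomy (D.pos u).2 (D.pos v).2 with h' | h' | h'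
    · exact Or.inl (Or.inr ⟨h, h'⟩)
    · exact Or.inr (Or.inl (D.pos_injective (Prod.ext h h')))
    · exact Or.inr (Or.inr (Or.inr ⟨h.symm, h'⟩))
  · exact Or.inr (Or.inr (Or.inl h))

lemma R_le {u v : V} (h : R D u v) : (D.pos u).1 ≤ (D.pos v).1 := by
  rcases h with h | ⟨h, -⟩
  · exact h.le
  · exact h.le

open Classical in
/-- rank of a vertex -/
noncomputable def rk [Fintype V] (D : Drawing V E) (v : V) : ℕ :=
  (Finset.univ.filter (fun u => R D u v)).card

lemma rk_lt [Fintype V] {u v : V} (h : R D u v) : rk D u < rk D v := by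
  classical
  apply Finset.card_lt_card
  rw [Finset.ssubset_iff_of_subset]
  · exact ⟨u, by simp [h], by simp [R_irrefl]⟩
  · intro w hw
    simp only [Finset.mem_filter, Finset.mem_univ, true_and] at hw ⊢
    exact R_trans hw h

lemma R_of_rk_lt [Fintype V] {u v : V} (h : rk D u < rk D v) : R D u v := by
  rcases R_tri (D := D) u v with h' | h' | h'
  · exact h'
  · subst h'; exact absurd h (lt_irrefl _)
  · exact absurd h (not_lt.2 (rk_lt h').le)

lemma rk_inj [Fintype V] {u v : V} (h : rk D u = rk D v) : u = v := by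
  rcases R_tri (D := D) u v with h' | h' | h'
  · exact absurd h (rk_lt h').ne
  · exact h'
  · exact absurd h (rk_lt h').ne'

lemma rk_lt_card [Fintype V] (v : V) : rk D v < Fintype.card V := by
  classical
  apply Finset.card_lt_card
  rw [Finset.ssubset_iff_of_subset (Finset.subset_univ _)]
  exact ⟨v, Finset.mem_univ _, by simp [R_irrefl]⟩

lemma rk_surj [Fintype V] {m : ℕ} (hm : m < Fintype.card V) : ∃ v, rk D v = m := by
  have h1 : Function.Injective (fun v => (⟨rk D v, rk_lt_card v⟩ : Fin (Fintype.card V))) := by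
    intro u v h
    exact rk_inj (Fin.mk.inj h)
  have h2 := ((Fintype.bijective_iff_injective_and_card _).2 ⟨h1, by simp⟩).2
  obtain ⟨v, hv⟩ := h2 ⟨m, hm⟩
  exact ⟨v, congrArg Fin.val hv⟩

/-- the graph function of an edge -/
noncomputable def gr (hM : D.Monotone) (e : E) : ℝ → ℝ := (edge_data hM e).choose

lemma gr_cont (hM : D.Monotone) (e : E) : Continuous (gr hM e) := (edge_data hM e).choose_spec.1

lemma gr_eq (hM : D.Monotone) (e : E) (t) : gr hM e (D.curve e t).1 = (D.curve e t).2 :=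
  (edge_data hM e).choose_spec.2.1 t

open Classical in
/-- left and right end-vertex -/
noncomputable def lf (D : Drawing V E) (e : E) : V :=
  if (D.pos (D.src e)).1 < (D.pos (D.tgt e)).1 then D.src e else D.tgt e

open Classical in
noncomputable def rt (D : Drawing V E) (e : E) : V :=
  if (D.pos (D.src e)).1 < (D.pos (D.tgt e)).1 then D.tgt e else D.src e

lemma lf_rt (hM : D.Monotone) (e : E) : (D.pos (lf D e)).1 < (D.pos (rt D e)).1 ∧
    Set.uIcc (D.pos (D.src e)).1 (D.pos (D.tgt e)).1 =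
      Set.Icc (D.pos (lf D e)).1 (D.pos (rt D e)).1 ∧
    ((lf D e = D.src e ∧ rt D e = D.tgt e) ∨ (lf D e = D.tgt e ∧ rt D e = D.src e)) := by
  have hne := (edge_data hM e).choose_spec.2.2.1
  unfold lf rt
  by_cases h : (D.pos (D.src e)).1 < (D.pos (D.tgt e)).1
  · simp only [h, if_true]
    exact ⟨trivial, Set.uIcc_of_le h.le, by simp⟩
  · simp only [h, if_false]
    have h' := lt_of_le_of_ne (not_lt.1 h) hne.symm
    exact ⟨h', Set.uIcc_of_ge h'.le, by simp⟩

lemma x_mem (hM : D.Monotone) (e : E) (t) :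
    (D.curve e t).1 ∈ Set.Icc (D.pos (lf D e)).1 (D.pos (rt D e)).1 := by
  rw [← (lf_rt hM e).2.1]
  exact (edge_data hM e).choose_spec.2.2.2.1 t

lemma x_surj (hM : D.Monotone) (e : E) {c : ℝ}
    (hc : c ∈ Set.Icc (D.pos (lf D e)).1 (D.pos (rt D e)).1) : ∃ t, (D.curve e t).1 = c := by
  rw [← (lf_rt hM e).2.1] at hc
  exact (edge_data hM e).choose_spec.2.2.2.2 c hc

lemma gr_lf (hM : D.Monotone) (e : E) :
    gr hM e (D.pos (lf D e)).1 = (D.pos (lf D e)).2 := by
  rcases (lf_rt hM e).2.2 with ⟨h, -⟩ | ⟨h, -⟩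
  · rw [h]; simpa using gr_eq hM e 0
  · rw [h]; simpa using gr_eq hM e 1

lemma gr_rt (hM : D.Monotone) (e : E) :
    gr hM e (D.pos (rt D e)).1 = (D.pos (rt D e)).2 := by
  rcases (lf_rt hM e).2.2 with ⟨-, h⟩ | ⟨-, h⟩
  · rw [h]; simpa using gr_eq hM e 1
  · rw [h]; simpa using gr_eq hM e 0

lemma gr_ne (hM : D.Monotone) (e : E) {z : V} (hz1 : z ≠ lf D e) (hz2 : z ≠ rt D e)
    (hx : (D.pos z).1 ∈ Set.Icc (D.pos (lf D e)).1 (D.pos (rt D e)).1) :
    gr hM e (D.pos z).1 ≠ (D.pos z).2 := by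
  intro h
  obtain ⟨t, ht⟩ := x_surj hM e hx
  have hz : D.curve e t = D.pos z := by
    refine Prod.ext ht ?_
    rw [← gr_eq hM e t, ht, h]
  by_cases h0 : t = 0
  · subst h0
    rw [Path.source] at hz
    have := D.pos_injective hz
    rcases (lf_rt hM e).2.2 with ⟨q, q'⟩ | ⟨q, q'⟩
    · exact hz1 (this.symm.trans q.symm)
    · exact hz2 (this.symm.trans q'.symm)
  by_cases h1 : t = 1
  · subst h1
    rw [Path.target] at hz
    have := D.pos_injective hz
    rcases (lf_rt hM e).2.2 with ⟨q, q'⟩ | ⟨q, q'⟩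
    · exact hz2 (this.symm.trans q'.symm)
    · exact hz1 (this.symm.trans q.symm)
  exact D.curve_ne_vertex e t h0 h1 z hz

open Classical in
/-- the word of an edge -/
noncomputable def word [Fintype V] (hM : D.Monotone) (e : E) : W :=
  ((rk D (lf D e) : ℤ), (rk D (rt D e) : ℤ), fun w =>
    if (rk D (lf D e) : ℤ) < w ∧ w < (rk D (rt D e) : ℤ) then
      (if ∃ z, (rk D z : ℤ) = w ∧ (D.pos z).2 < gr hM e (D.pos z).1 then 1 else -1) else 0)

lemma word_valid [Fintype V] (hM : D.Monotone) (e : E) : Valid (word hM e) := by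
  classical
  refine ⟨?_, ?_⟩
  · show (rk D (lf D e) : ℤ) < (rk D (rt D e) : ℤ)
    exact_mod_cast rk_lt (Or.inl (lf_rt hM e).1)
  · intro w
    constructor
    · intro h
      have h' : (rk D (lf D e) : ℤ) < w ∧ w < (rk D (rt D e) : ℤ) := h
      simp only [word, h', and_self, if_true]
      by_cases hz : ∃ z, (rk D z : ℤ) = w ∧ (D.pos z).2 < gr hM e (D.pos z).1
      · left; simp [hz]
      · right; simp [hz]
    · intro h
      have h' : ¬ ((rk D (lf D e) : ℤ) < w ∧ w < (rk D (rt D e) : ℤ)) := h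
      simp only [word]
      rw [if_neg h']

/-- a vertex strictly between the ends is passed above or below -/
lemma word_inner [Fintype V] (hM : D.Monotone) (e : E) {z : V}
    (h1 : rk D (lf D e) < rk D z) (h2 : rk D z < rk D (rt D e)) :
    ((word hM e).2.2 (rk D z) = 1 ∧ (D.pos z).2 < gr hM e (D.pos z).1) ∨
    ((word hM e).2.2 (rk D z) = -1 ∧ gr hM e (D.pos z).1 < (D.pos z).2) := by
  classical
  have hb : (rk D (lf D e) : ℤ) < (rk D z : ℤ) ∧ (rk D z : ℤ) < (rk D (rt D e) : ℤ) := by
    exact_mod_cast (And.intro h1 h2)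
  have hne : gr hM e (D.pos z).1 ≠ (D.pos z).2 := by
    apply gr_ne hM e
    · rintro rfl; exact lt_irrefl _ h1
    · rintro rfl; exact lt_irrefl _ h2
    · exact ⟨R_le (R_of_rk_lt h1), R_le (R_of_rk_lt h2)⟩
  by_cases h : (D.pos z).2 < gr hM e (D.pos z).1
  · left
    refine ⟨?_, h⟩
    have : ∃ z', (rk D z' : ℤ) = (rk D z : ℤ) ∧ (D.pos z').2 < gr hM e (D.pos z').1 := ⟨z, rfl, h⟩
    simp only [word, hb, and_self, if_true, this]
  · right
    refine ⟨?_, lt_of_le_of_ne (not_lt.1 h) hne⟩
    have : ¬ ∃ z', (rk D z' : ℤ) = (rk D z : ℤ) ∧ (D.pos z').2 < gr hM e (D.pos z').1 := by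
      rintro ⟨z', hz', hlt⟩
      have : z' = z := rk_inj (by exact_mod_cast hz')
      subst this
      exact h hlt
    simp only [word, hb, and_self, if_true, this, if_false]

/-- all positions of a word, including the ends -/
lemma word_all [Fintype V] (hM : D.Monotone) (e : E) {z : V}
    (h1 : rk D (lf D e) ≤ rk D z) (h2 : rk D z ≤ rk D (rt D e)) :
    ((word hM e).2.2 (rk D z) = 1 ∧ (D.pos z).2 < gr hM e (D.pos z).1) ∨
    ((word hM e).2.2 (rk D z) = -1 ∧ gr hM e (D.pos z).1 < (D.pos z).2) ∨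
    ((word hM e).2.2 (rk D z) = 0 ∧ gr hM e (D.pos z).1 = (D.pos z).2) := by
  rcases h1.lt_or_eq with h1 | h1
  · rcases h2.lt_or_eq with h2 | h2
    · rcases word_inner hM e h1 h2 with h | h
      · exact Or.inl h
      · exact Or.inr (Or.inl h)
    · right; right
      have hz : z = rt D e := rk_inj h2
      refine ⟨((word_valid hM e).2 _).2 ?_, ?_⟩
      · intro hh
        have : (rk D z : ℤ) < rk D (rt D e) := hh.2
        rw [h2] at this
        exact lt_irrefl _ this
      · rw [hz]; exact gr_rt hM e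
  · right; right
    have hz : z = lf D e := rk_inj h1.symm
    refine ⟨((word_valid hM e).2 _).2 ?_, ?_⟩
    · intro hh
      have : (rk D (lf D e) : ℤ) < rk D z := hh.1
      rw [h1] at this
      exact lt_irrefl _ this
    · rw [hz]; exact gr_lf hM e

/-- the sign of the difference of two words is the sign of the difference of heights -/
lemma diff_sign [Fintype V] (hM : D.Monotone) (e f : E) {z : V}
    (h1 : rk D (lf D e) ≤ rk D z) (h2 : rk D z ≤ rk D (rt D e))
    (h3 : rk D (lf D f) ≤ rk D z) (h4 : rk D z ≤ rk D (rt D f)) :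
    (0 < (word hM e).2.2 (rk D z) - (word hM f).2.2 (rk D z) →
      0 < gr hM e (D.pos z).1 - gr hM f (D.pos z).1) ∧
    ((word hM e).2.2 (rk D z) - (word hM f).2.2 (rk D z) < 0 →
      gr hM e (D.pos z).1 - gr hM f (D.pos z).1 < 0) := by
  rcases word_all hM e h1 h2 with ⟨a, b⟩ | ⟨a, b⟩ | ⟨a, b⟩ <;>
    rcases word_all hM f h3 h4 with ⟨c, d⟩ | ⟨c, d⟩ | ⟨c, d⟩ <;>
    rw [a, c] <;> constructor <;> intro h <;> linarith

/-- an alternating sequence of length `k + 2` forces more than `k` crossings -/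
lemma crossings_of_alt [Fintype V] (hM : D.Monotone) {e f : E} (hef : e ≠ f) {k : ℕ}
    (h : Cr (word hM e) (word hM f) (k + 2)) : ¬ (D.crossings e f).encard ≤ k := by
  classical
  obtain ⟨w, h1, h2⟩ := h
  have hz : ∀ i, ∃ z : V, i < k + 2 → ((rk D z : ℤ) = w i ∧ rk D (lf D e) ≤ rk D z ∧
      rk D z ≤ rk D (rt D e) ∧ rk D (lf D f) ≤ rk D z ∧ rk D z ≤ rk D (rt D f)) := by
    intro i
    by_cases hi : i < k + 2
    · obtain ⟨a, b, c⟩ := h1 i hi
      have a' : max (rk D (lf D e) : ℤ) (rk D (lf D f) : ℤ) ≤ w i := a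
      have b' : w i ≤ min (rk D (rt D e) : ℤ) (rk D (rt D f) : ℤ) := b
      rw [max_le_iff] at a'
      rw [le_min_iff] at b'
      have hr := rk_lt_card (D := D) (rt D e)
      obtain ⟨m, hm⟩ : ∃ m : ℕ, (m : ℤ) = w i := ⟨(w i).toNat, by omega⟩
      obtain ⟨z, hz⟩ := rk_surj (D := D) (m := m) (by omega)
      refine ⟨z, fun _ => ⟨by rw [hz, hm], ?_, ?_, ?_, ?_⟩⟩ <;> omega
    · exact ⟨lf D e, fun h => absurd h hi⟩
  choose z hz using hz
  set X : ℕ → ℝ := fun i => (D.pos (z i)).1 with hX
  set Δ : ℝ → ℝ := fun x => gr hM e x - gr hM f x with hΔ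
  have hΔc : Continuous Δ := (gr_cont hM e).sub (gr_cont hM f)
  have hprod : ∀ i, i < k + 1 → Δ (X i) * Δ (X (i + 1)) < 0 := by
    intro i hi
    obtain ⟨a, b⟩ := h2 i (by omega)
    obtain ⟨q1, q2, q3, q4, q5⟩ := hz i (by omega)
    obtain ⟨r1, r2, r3, r4, r5⟩ := hz (i + 1) (by omega)
    rw [← q1, ← r1] at b
    obtain ⟨s1, s2⟩ := diff_sign hM e f q2 q3 q4 q5
    obtain ⟨t1, t2⟩ := diff_sign hM e f r2 r3 r4 r5
    rcases mul_neg_iff.1 b with ⟨u1, u2⟩ | ⟨u1, u2⟩
    · exact mul_neg_of_pos_of_neg (s1 u1) (t2 u2)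
    · exact mul_neg_of_neg_of_pos (s2 u1) (t1 u2)
  have hXlt : ∀ i, i < k + 1 → X i < X (i + 1) := by
    intro i hi
    obtain ⟨a, b⟩ := h2 i (by omega)
    obtain ⟨q1, -⟩ := hz i (by omega)
    obtain ⟨r1, -⟩ := hz (i + 1) (by omega)
    have hR : R D (z i) (z (i + 1)) := R_of_rk_lt (by omega)
    refine lt_of_le_of_ne (R_le hR) ?_
    intro hh
    have := hprod i hi
    have hh' : X i = X (i + 1) := hh
    rw [← hh'] at this
    nlinarith [mul_self_nonneg (Δ (X i))]
  have hXmono : ∀ i j, i ≤ j → j < k + 2 → X i ≤ X j := by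
    intro i j hij
    induction hij with
    | refl => intro _; exact le_refl _
    | step _ ih => 
      intro hj
      exact (ih (by omega)).trans (hXlt _ (by omega)).le
  have hξ : ∀ i, ∃ ξ : ℝ, i < k + 1 → (X i < ξ ∧ ξ < X (i + 1) ∧ Δ ξ = 0) := by
    intro i
    by_cases hi : i < k + 1
    · rcases mul_neg_iff.1 (hprod i hi) with ⟨u1, u2⟩ | ⟨u1, u2⟩
      · obtain ⟨ξ, hξ, h0⟩ := intermediate_value_Ioo' (hXlt i hi).le hΔc.continuousOn ⟨u2, u1⟩
        exact ⟨ξ, fun _ => ⟨hξ.1, hξ.2, h0⟩⟩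
      · obtain ⟨ξ, hξ, h0⟩ := intermediate_value_Ioo (hXlt i hi).le hΔc.continuousOn ⟨u1, u2⟩
        exact ⟨ξ, fun _ => ⟨hξ.1, hξ.2, h0⟩⟩
    · exact ⟨0, fun h => absurd h hi⟩
  choose ξ hξ using hξ
  have hst : ∀ i : Fin (k + 1), ∃ p ∈ D.crossings e f, (D.curve e p.1).1 = ξ i := by
    intro i
    obtain ⟨a, b, c⟩ := hξ i i.2
    obtain ⟨q1, q2, q3, q4, q5⟩ := hz i (by omega)
    obtain ⟨r1, r2, r3, r4, r5⟩ := hz (i + 1) (by omega)
    have cmp : ∀ u v : V, rk D u ≤ rk D v → (D.pos u).1 ≤ (D.pos v).1 := by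
      intro u v huv
      rcases huv.lt_or_eq with h | h
      · exact R_le (R_of_rk_lt h)
      · rw [rk_inj h]
    have e1 : (D.pos (lf D e)).1 < ξ i := (cmp _ _ q2).trans_lt a
    have e2 : ξ i < (D.pos (rt D e)).1 := b.trans_le (cmp _ _ r3)
    have f1 : (D.pos (lf D f)).1 < ξ i := (cmp _ _ q4).trans_lt a
    have f2 : ξ i < (D.pos (rt D f)).1 := b.trans_le (cmp _ _ r5)
    obtain ⟨s, hs⟩ := x_surj hM e ⟨e1.le, e2.le⟩
    obtain ⟨t, ht⟩ := x_surj hM f ⟨f1.le, f2.le⟩
    have ends : ∀ (g : E) (u : unitInterval), (u = 0 ∨ u = 1) →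
        (D.curve g u).1 = (D.pos (lf D g)).1 ∨ (D.curve g u).1 = (D.pos (rt D g)).1 := by
      intro g u hu
      rcases hu with rfl | rfl
      · rw [Path.source]
        rcases (lf_rt hM g).2.2 with ⟨h, h'⟩ | ⟨h, h'⟩
        · left; rw [h]
        · right; rw [h']
      · rw [Path.target]
        rcases (lf_rt hM g).2.2 with ⟨h, h'⟩ | ⟨h, h'⟩
        · right; rw [h']
        · left; rw [h]
    have inner : ∀ (g : E) (u : unitInterval), (D.pos (lf D g)).1 < (D.curve g u).1 →
        (D.curve g u).1 < (D.pos (rt D g)).1 → u ≠ 0 ∧ u ≠ 1 := by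
      intro g u hu1 hu2
      constructor
      · intro h
        rcases ends g u (Or.inl h) with h' | h' <;> linarith
      · intro h
        rcases ends g u (Or.inr h) with h' | h' <;> linarith
    obtain ⟨s0, s1⟩ := inner e s (by rw [hs]; exact e1) (by rw [hs]; exact e2)
    obtain ⟨t0, t1⟩ := inner f t (by rw [ht]; exact f1) (by rw [ht]; exact f2)
    refine ⟨(s, t), ⟨s0, s1, t0, t1, ?_, ?_⟩, hs⟩
    · intro h
      exact hef (congrArg Prod.fst h)
    · refine Prod.ext (hs.trans ht.symm) ?_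
      show (D.curve e s).2 = (D.curve f t).2
      rw [← gr_eq hM e s, ← gr_eq hM f t, hs, ht]
      have : gr hM e (ξ i) - gr hM f (ξ i) = 0 := c
      linarith
  choose p hp hpx using hst
  have hinj : Function.Injective p := by
    have hlt : ∀ i j : Fin (k + 1), i < j → ξ i < ξ j := by
      intro i j hij
      have h3 : (i : ℕ) + 1 ≤ (j : ℕ) := hij
      exact ((hξ i i.2).2.1.trans_le (hXmono _ _ h3 (by omega))).trans (hξ j j.2).1
    intro i j hij
    have : ξ i = ξ j := by rw [← hpx i, ← hpx j, hij]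
    rcases lt_trichotomy i j with h | h | h
    · exact absurd this (hlt i j h).ne
    · exact h
    · exact absurd this (hlt j i h).ne'
  intro hle
  have hsub : ((Finset.univ.image p : Finset (unitInterval × unitInterval)) :
      Set (unitInterval × unitInterval)) ⊆ D.crossings e f := by
    intro q hq
    simp only [Finset.coe_image, Finset.coe_univ, Set.image_univ, Set.mem_range] at hq
    obtain ⟨i, rfl⟩ := hq
    exact hp i
  have h3 := (Set.encard_le_encard hsub).trans hle
  rw [Set.encard_coe_eq_coe_finsetCard, Finset.card_image_of_injective _ hinj,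
    Finset.card_univ, Fintype.card_fin] at h3
  have h4 : k + 1 ≤ k := by exact_mod_cast h3
  omega

/-- edges with the same word are parallel and homotopic -/
lemma word_inj [Fintype V] (hM : D.Monotone) (hH : D.NonHomotopic) :
    Function.Injective (word hM) := by
  intro e f hw
  by_contra hef
  have h1 : lf D e = lf D f := rk_inj (by
    have : (rk D (lf D e) : ℤ) = (rk D (lf D f) : ℤ) := congrArg Prod.fst hw
    exact_mod_cast this)
  have h2 : rt D e = rt D f := rk_inj (by
    have : (rk D (rt D e) : ℤ) = (rk D (rt D f) : ℤ) := congrArg (fun q => q.2.1) hw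
    exact_mod_cast this)
  have h3 : ∀ w, (word hM e).2.2 w = (word hM f).2.2 w := by
    intro w; rw [hw]
  have hO : ∀ p ∈ D.pos '' {D.src e, D.tgt e}ᶜ,
      p.1 ∈ Set.Icc (D.pos (lf D e)).1 (D.pos (rt D e)).1 →
      (p.2 < gr hM e p.1 ∧ p.2 < gr hM f p.1) ∨ (gr hM e p.1 < p.2 ∧ gr hM f p.1 < p.2) := by
    rintro _ ⟨z, hz, rfl⟩ hx
    have hzl : z ≠ lf D e := by
      intro h
      apply hz
      rcases (lf_rt hM e).2.2 with ⟨q, -⟩ | ⟨q, -⟩ <;> rw [h, q] <;> simp
    have hzr : z ≠ rt D e := by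
      intro h
      apply hz
      rcases (lf_rt hM e).2.2 with ⟨-, q⟩ | ⟨-, q⟩ <;> rw [h, q] <;> simp
    rcases hx.1.lt_or_eq with hx1 | hx1
    · rcases hx.2.lt_or_eq with hx2 | hx2
      · have r1 : rk D (lf D e) < rk D z := rk_lt (Or.inl hx1)
        have r2 : rk D z < rk D (rt D e) := rk_lt (Or.inl hx2)
        rcases word_inner hM e r1 r2 with ⟨a, b⟩ | ⟨a, b⟩ <;>
          rcases word_inner hM f (h1 ▸ r1) (h2 ▸ r2) with ⟨c, d⟩ | ⟨c, d⟩
        · exact Or.inl ⟨b, d⟩
        · rw [h3, c] at a; norm_num at a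
        · rw [h3, c] at a; norm_num at a
        · exact Or.inr ⟨b, d⟩
      · have hne : (D.pos z).2 ≠ (D.pos (rt D e)).2 := by
          intro h
          exact hzr (D.pos_injective (Prod.ext hx2 h))
        have g1 := gr_rt hM e
        have g2 := gr_rt hM f
        rw [← h2] at g2
        rw [hx2, g1, g2]
        rcases lt_or_gt_of_ne hne with h | h
        · exact Or.inl ⟨h, h⟩
        · exact Or.inr ⟨h, h⟩
    · have hne : (D.pos z).2 ≠ (D.pos (lf D e)).2 := by
        intro h
        exact hzl (D.pos_injective (Prod.ext hx1.symm h))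
      have g1 := gr_lf hM e
      have g2 := gr_lf hM f
      rw [← h1] at g2
      rw [← hx1, g1, g2]
      rcases lt_or_gt_of_ne hne with h | h
      · exact Or.inl ⟨h, h⟩
      · exact Or.inr ⟨h, h⟩
  have hxe := x_mem hM e
  have hxf := x_mem hM f
  rw [← h1, ← h2] at hxf
  have same : (D.src e = D.src f ∧ D.tgt e = D.tgt f) ∨ (D.src e = D.tgt f ∧ D.tgt e = D.src f) := by
    rcases (lf_rt hM e).2.2 with ⟨a, b⟩ | ⟨a, b⟩ <;>
      rcases (lf_rt hM f).2.2 with ⟨c, d⟩ | ⟨c, d⟩
    · left; exact ⟨by rw [← a, ← c, h1], by rw [← b, ← d, h2]⟩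
    · right; exact ⟨by rw [← a, ← c, h1], by rw [← b, ← d, h2]⟩
    · right; exact ⟨by rw [← b, ← d, h2], by rw [← a, ← c, h1]⟩
    · left; exact ⟨by rw [← b, ← d, h2], by rw [← a, ← c, h1]⟩
  rcases same with ⟨hs, ht⟩ | ⟨hs, ht⟩
  · refine (hH e f hef).1 hs ht ?_
    refine homotopic_of_graphs (D.curve e).continuous (D.curve f).continuous ?_ ?_
      (gr_cont hM e) (gr_cont hM f) (gr_eq hM e) (gr_eq hM f) hxe hxf hO
    · rw [Path.source, Path.source, hs]
    · rw [Path.target, Path.target, ht]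
  · refine (hH e f hef).2 hs ht ?_
    refine homotopic_of_graphs (D.curve e).continuous
      ((D.curve f).continuous.comp unitInterval.continuous_symm) ?_ ?_
      (gr_cont hM e) (gr_cont hM f) (gr_eq hM e) (fun t => gr_eq hM f _) hxe (fun t => hxf _) hO
    · show D.curve e 0 = D.curve f (unitInterval.symm 0)
      rw [Path.source, unitInterval.symm_zero, Path.target, hs]
    · show D.curve e 1 = D.curve f (unitInterval.symm 1)
      rw [Path.target, unitInterval.symm_one, Path.source, ht]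

end Geometry

/-- **A linear-in-the-binomial-sum bound for monotone non-homotopic `k`-crossing drawings.**
If a finite multigraph with vertex set `V` and edge set `E` has a monotone non-homotopic drawing in
which every two distinct edges cross at most `k` times, then
`|E| ≤ 5 * ∑_{ℓ = 0}^{k} C(|V|, ℓ + 1)`. -/
theorem result (V E : Type) [Fintype V] [Fintype E] (D : Drawing V E) (k : ℕ)
    (hM : D.Monotone) (hH : D.NonHomotopic) (hk : D.CrossAtMost k) :
    Fintype.card E ≤ 5 * ∑ l ∈ Finset.range (k + 1), (Fintype.card V).choose (l + 1) := by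
  classical
  rcases Nat.eq_zero_or_pos (Fintype.card V) with hV | hV
  · have : IsEmpty V := Fintype.card_eq_zero_iff.1 hV
    have hE : IsEmpty E := ⟨fun e => IsEmpty.false (D.src e)⟩
    rw [Fintype.card_eq_zero_iff.2 hE]
    exact Nat.zero_le _
  · obtain ⟨m, hm⟩ : ∃ m, Fintype.card V = m + 1 := ⟨Fintype.card V - 1, by omega⟩
    have hcard : (Finset.univ.image (word hM)).card = Fintype.card E := by
      rw [Finset.card_image_of_injective _ (word_inj hM hH), Finset.card_univ]
    have hB := boundH m (k + 1) (Finset.univ.image (word hM)) (by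
      intro w hw
      obtain ⟨e, -, rfl⟩ := Finset.mem_image.1 hw
      refine ⟨word_valid hM e, ?_, ?_⟩
      · show (0 : ℤ) ≤ (rk D (lf D e) : ℤ)
        positivity
      · show (rk D (rt D e) : ℤ) ≤ m
        have := rk_lt_card (D := D) (rt D e)
        omega) (by
      intro w hw w' hw'
      obtain ⟨e, -, rfl⟩ := Finset.mem_image.1 hw
      obtain ⟨f, -, rfl⟩ := Finset.mem_image.1 hw'
      by_cases hef : e = f
      · subst hef
        rintro ⟨q, h1, -⟩
        exact (h1 0 (by omega)).2.2 (by simp)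
      · intro h
        exact crossings_of_alt hM hef h (hk e f hef))
    rw [hcard] at hB
    have h1 : m ≤ ∑ l ∈ Finset.range (k + 1), (m + 1).choose (l + 1) := by
      rw [Finset.sum_range_succ']
      simp
      omega
    have h2 : ∑ i ∈ Finset.range (k + 1), m.choose (i + 1) ≤
        ∑ l ∈ Finset.range (k + 1), (m + 1).choose (l + 1) := by
      apply Finset.sum_le_sum
      intro i _
      rw [Nat.choose_succ_succ m i]
      exact Nat.le_add_left _ _
    rw [hm]
    omega

end Pool.Agent.Results.MP_6a261b_co.MonotoneBound
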